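import Pool.Agent.W981.Den.Main

/-!
# Counting lemmas for spaces of symmetric matrices
-/

set_option autoImplicit false
set_option linter.unusedSectionVars false

namespace Pool.Agent.W981.Des

open Pool.Agent.W981.Hyp Pool.Agent.W981.Blk Pool.Agent.W981.Den Module Matrix

section alg

variable {K : Type*} [Field K] [CharZero K] {n : Type*} [Fintype n] [DecidableEq n]

/-- the symmetric product -/
def sp (z w : n → K) : Matrix n n K := vecMulVec z w + vecMulVec w z

theorem vmv (z w v : n → K) : vecMulVec z w *ᵥ v = (w ⬝ᵥ v) • z := by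
  ext i
  simp only [mulVec, dotProduct, vecMulVec_apply, Pi.smul_apply, smul_eq_mul, Finset.sum_mul]
  exact Finset.sum_congr rfl fun j _ => by ring

theorem sp_mulVec (z w v : n → K) : sp z w *ᵥ v = (w ⬝ᵥ v) • z + (z ⬝ᵥ v) • w := by
  rw [sp, Matrix.add_mulVec, vmv, vmv]

theorem sp_add (z w w' : n → K) : sp z (w + w') = sp z w + sp z w' := by
  ext i j
  simp only [sp, Matrix.add_apply, vecMulVec_apply, Pi.add_apply]
  ring

theorem sp_smul (z w : n → K) (c : K) : sp z (c • w) = c • sp z w := by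
  ext i j
  simp only [sp, Matrix.add_apply, vecMulVec_apply, Pi.smul_apply, Matrix.smul_apply, smul_eq_mul]
  ring

theorem sp_zero (z : n → K) : sp z 0 = 0 := by
  ext i j
  simp [sp]

/-- the matrices which vanish on the orthogonal space of `S` -/
def Van (S : Submodule K (n → K)) : Submodule K (Matrix n n K) where
  carrier := {M | ∀ x ∈ perp S, ∀ y ∈ perp S, x ⬝ᵥ (M *ᵥ y) = 0}
  add_mem' := by
    intro M M' hM hM' x hx y hy
    rw [Matrix.add_mulVec, dotProduct_add, hM x hx y hy, hM' x hx y hy, add_zero]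
  zero_mem' := by
    intro x _ y _
    rw [Matrix.zero_mulVec, dotProduct_zero]
  smul_mem' := by
    intro c M hM x hx y hy
    rw [smul_mulVec, dotProduct_smul, hM x hx y hy, smul_zero]

theorem Van_mono {S T : Submodule K (n → K)} (h : S ≤ T) : Van S ≤ Van T :=
  fun _ hM x hx y hy => hM x (perp_anti h hx) y (perp_anti h hy)

theorem sp_mem_Van {S : Submodule K (n → K)} {z : n → K} (w : n → K) (hz : z ∈ S) :
    sp z w ∈ Van S := by
  intro x hx y hy
  rw [sp_mulVec, dotProduct_add, dotProduct_smul, dotProduct_smul, hx z hz, smul_zero, zero_add,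
    dotProduct_comm z y, hy z hz, zero_smul]

/-- **One step of the counting.** -/
theorem step (N : Submodule K (Matrix n n K)) (S V : Submodule K (n → K)) {z : n → K}
    (hz : z ∉ S) (h : ∀ τ ∈ V, ∃ M ∈ N, M - sp z τ ∈ Van S) :
    finrank K (N ⊓ Van S : Submodule K (Matrix n n K)) + finrank K V ≤
      finrank K N + finrank K (V ⊓ S : Submodule K (n → K)) := by
  obtain ⟨η, hη, hηz⟩ : ∃ η ∈ perp S, η ⬝ᵥ z = 1 := by
    by_contra hcon
    refine hz (mem_iff_dot.2 fun ψ hψ => ?_)
    by_contra h0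
    refine hcon ⟨(ψ ⬝ᵥ z)⁻¹ • ψ, Submodule.smul_mem _ _ hψ, ?_⟩
    rw [smul_dotProduct, smul_eq_mul, inv_mul_cancel₀ h0]
  let E : Matrix n n K →ₗ[K] (n → K) :=
    { toFun := fun M => M *ᵥ η
      map_add' := fun M M' => Matrix.add_mulVec M M' η
      map_smul' := fun c M => smul_mulVec c M η }
  let F : (n → K) →ₗ[K] (n → K) :=
    { toFun := fun τ => (η ⬝ᵥ τ) • z + τ
      map_add' := fun a b => by
        rw [dotProduct_add, add_smul]
        abel
      map_smul' := fun c a => by
        rw [dotProduct_smul, smul_eq_mul, mul_smul, RingHom.id_apply, smul_add] }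
  have h1 := finrank_map_add (S.mkQ ∘ₗ E) N
  have h2 := finrank_map_add (S.mkQ ∘ₗ F) V
  have h3 : V.map (S.mkQ ∘ₗ F) ≤ N.map (S.mkQ ∘ₗ E) := by
    rintro _ ⟨τ, hτ, rfl⟩
    obtain ⟨M, hM, hM2⟩ := h τ hτ
    refine ⟨M, hM, ?_⟩
    rw [LinearMap.comp_apply, LinearMap.comp_apply, ← sub_eq_zero, ← map_sub,
      Submodule.mkQ_apply, Submodule.Quotient.mk_eq_zero]
    refine mem_iff_dot.2 fun ψ hψ => ?_
    have e1 : E M - F τ = (M - sp z τ) *ᵥ η := by
      change M *ᵥ η - ((η ⬝ᵥ τ) • z + τ) = _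
      rw [Matrix.sub_mulVec, sp_mulVec, dotProduct_comm τ, dotProduct_comm z, hηz, one_smul]
    rw [e1]
    exact hM2 ψ hψ η hη
  have h4 : N ⊓ Van S ≤ LinearMap.ker (S.mkQ ∘ₗ E) ⊓ N := by
    rintro M ⟨hM, hM2⟩
    have hE : E M ∈ S := mem_iff_dot.2 fun ψ hψ => hM2 ψ hψ η hη
    exact ⟨(Submodule.Quotient.mk_eq_zero S).2 hE, hM⟩
  have h5 : LinearMap.ker (S.mkQ ∘ₗ F) ⊓ V ≤ V ⊓ S := by
    rintro τ ⟨hτ, hτV⟩
    refine ⟨hτV, ?_⟩
    have hτ' : (η ⬝ᵥ τ) • z + τ ∈ S := (Submodule.Quotient.mk_eq_zero S).1 hτ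
    have e1 := hη _ hτ'
    rw [dotProduct_add, dotProduct_smul, hηz, smul_eq_mul, mul_one] at e1
    have e2 : η ⬝ᵥ τ = 0 := by
      have : (2 : K) * (η ⬝ᵥ τ) = 0 := by rw [two_mul]; exact e1
      exact (mul_eq_zero.1 this).resolve_left two_ne_zero
    rw [e2, zero_smul, zero_add] at hτ'
    exact hτ'
  have h6 := Submodule.finrank_mono h3
  have h7 := Submodule.finrank_mono h4
  have h8 := Submodule.finrank_mono h5
  omega

theorem image_lt {d : ℕ} (z : Fin (d + 1) → n → K) (i : Fin d) :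
    z '' {j | j < i.castSucc} = (z ∘ Fin.castSucc) '' {j | j < i} := by
  ext v
  constructor
  · rintro ⟨j, hj, rfl⟩
    have hj' : j.1 < i.1 := hj
    exact ⟨⟨j.1, by omega⟩, hj', rfl⟩
  · rintro ⟨j, hj, rfl⟩
    exact ⟨j.castSucc, hj, rfl⟩

theorem image_last {d : ℕ} (z : Fin (d + 1) → n → K) :
    z '' {j | j < Fin.last d} = Set.range (z ∘ Fin.castSucc) := by
  ext v
  constructor
  · rintro ⟨j, hj, rfl⟩
    have hj' : j.1 < d := hj
    exact ⟨⟨j.1, hj'⟩, rfl⟩
  · rintro ⟨j, rfl⟩
    exact ⟨j.castSucc, Fin.castSucc_lt_last j, rfl⟩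

/-- **The counting lemma.** -/
theorem chain0 (N : Submodule K (Matrix n n K)) : ∀ (d : ℕ) (z : Fin d → n → K)
    (_ : LinearIndependent K z) (W : Fin d → Submodule K (n → K))
    (_ : ∀ i, ∀ w ∈ W i, sp (z i) w ∈ N),
    ∑ i, finrank K (W i) ≤
      finrank K (N ⊓ Van (Submodule.span K (Set.range z)) : Submodule K (Matrix n n K)) +
        ∑ i, finrank K (W i ⊓ Submodule.span K (z '' {j | j < i}) : Submodule K (n → K)) := by
  intro d
  induction d with
  | zero =>
    intro z _ W _
    simp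
  | succ d ih =>
    intro z hz W h
    have h1 := ih (z ∘ Fin.castSucc) (hz.comp _ (Fin.castSucc_injective d))
      (fun i => W i.castSucc) (fun i w hw => h _ w hw)
    rw [Fin.sum_univ_castSucc, Fin.sum_univ_castSucc]
    have h2 : z (Fin.last d) ∉ Submodule.span K (Set.range (z ∘ Fin.castSucc)) := by
      rw [← image_last]
      exact hz.notMem_span_image (by simp)
    have h3 := step (N ⊓ Van (Submodule.span K (Set.range z)))
      (Submodule.span K (Set.range (z ∘ Fin.castSucc))) (W (Fin.last d)) h2 (fun τ hτ =>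
        ⟨sp (z (Fin.last d)) τ, ⟨h _ τ hτ,
          sp_mem_Van τ (Submodule.subset_span ⟨Fin.last d, rfl⟩)⟩, by
            rw [sub_self]
            exact Submodule.zero_mem _⟩)
    have h4 : N ⊓ Van (Submodule.span K (Set.range (z ∘ Fin.castSucc))) ≤
        (N ⊓ Van (Submodule.span K (Set.range z))) ⊓
          Van (Submodule.span K (Set.range (z ∘ Fin.castSucc))) := by
      rintro M ⟨hM, hM2⟩
      exact ⟨⟨hM, Van_mono (Submodule.span_mono (Set.range_comp_subset_range _ _)) hM2⟩, hM2⟩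
    have h5 := Submodule.finrank_mono h4
    have h6 : ∀ i : Fin d, finrank K (W i.castSucc ⊓
        Submodule.span K (z '' {j | j < i.castSucc}) : Submodule K (n → K)) =
        finrank K (W i.castSucc ⊓ Submodule.span K ((z ∘ Fin.castSucc) '' {j | j < i}) :
          Submodule K (n → K)) := fun i => by rw [image_lt]
    rw [Finset.sum_congr rfl fun i _ => h6 i, image_last]
    omega

theorem chain (N : Submodule K (Matrix n n K)) {d : ℕ} {z : Fin d → n → K}
    (hz : LinearIndependent K z) (W : Fin d → Submodule K (n → K))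
    (h : ∀ i, ∀ w ∈ W i, sp (z i) w ∈ N) :
    ∑ i, finrank K (W i) ≤ finrank K N +
        ∑ i, finrank K (W i ⊓ Submodule.span K (z '' {j | j < i}) : Submodule K (n → K)) :=
  (chain0 N d z hz W h).trans (Nat.add_le_add_right (Submodule.finrank_mono inf_le_left) _)

/-- the first count -/
theorem countB (N : Submodule K (Matrix n n K)) {d : ℕ} {z : Fin d → n → K}
    (hz : LinearIndependent K z) (W : Fin d → Submodule K (n → K))
    (h : ∀ i, ∀ w ∈ W i, sp (z i) w ∈ N) :
    2 * ∑ i, finrank K (W i) ≤ 2 * finrank K N + d * (d - 1) := by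
  have h1 := chain N hz W h
  have h2 : ∀ i : Fin d, finrank K (W i ⊓ Submodule.span K (z '' {j | j < i}) :
      Submodule K (n → K)) ≤ i.1 := by
    intro i
    have e1 : Submodule.span K (z '' {j | j < i}) ≤
        Submodule.span K (Set.range fun j : Fin i.1 => z ⟨j.1, j.2.trans i.2⟩) := by
      refine Submodule.span_mono ?_
      rintro _ ⟨j, hj, rfl⟩
      exact ⟨⟨j.1, hj⟩, rfl⟩
    have e2 := Submodule.finrank_mono ((inf_le_right (a := W i)).trans e1)
    have e3 := finrank_range_le_card (R := K) (fun j : Fin i.1 => z ⟨j.1, j.2.trans i.2⟩)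
    rw [Fintype.card_fin] at e3
    exact e2.trans e3
  have h3 : ∑ i, finrank K (W i ⊓ Submodule.span K (z '' {j | j < i}) :
      Submodule K (n → K)) ≤ ∑ i : Fin d, i.1 := Finset.sum_le_sum fun i _ => h2 i
  have h4 : ∑ i : Fin d, i.1 = ∑ i ∈ Finset.range d, i := Fin.sum_univ_eq_sum_range (fun i => i) d
  have h5 := Finset.sum_range_id_mul_two d
  omega

/-- the second count -/
theorem countB' (N : Submodule K (Matrix n n K)) {d : ℕ} {z : Fin d → n → K}
    (hz : LinearIndependent K z) (W : Fin d → Submodule K (n → K))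
    (h : ∀ i, ∀ w ∈ W i, sp (z i) w ∈ N) :
    ∑ i, finrank K (W i) ≤ 2 * finrank K N := by
  have h1 := chain N hz W h
  have h2 := chain N (hz.comp _ Fin.rev_injective) (fun i => W i.rev) (fun i w hw => h _ w hw)
  have h3 : ∑ i : Fin d, finrank K (W i.rev) = ∑ i, finrank K (W i) :=
    Equiv.sum_comp Fin.revPerm fun i => finrank K (W i)
  have h4 : ∑ i : Fin d, finrank K (W i.rev ⊓ Submodule.span K ((z ∘ Fin.rev) '' {j | j < i}) :
      Submodule K (n → K)) = ∑ i, finrank K (W i ⊓ Submodule.span K (z '' {j | i < j}) :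
      Submodule K (n → K)) := by
    rw [← Equiv.sum_comp Fin.revPerm fun i => finrank K (W i ⊓
      Submodule.span K (z '' {j | i < j}) : Submodule K (n → K))]
    refine Finset.sum_congr rfl fun i _ => ?_
    have : (z ∘ Fin.rev) '' {j | j < i} = z '' {j | Fin.revPerm i < j} := by
      ext v
      constructor
      · rintro ⟨j, hj, rfl⟩
        exact ⟨j.rev, Fin.rev_lt_rev.2 hj, rfl⟩
      · rintro ⟨j, hj, rfl⟩
        refine ⟨j.rev, ?_, ?_⟩
        · have hj' : i.rev < j := hj
          exact Fin.rev_lt_iff.1 hj' 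
        · rw [Function.comp_apply, Fin.rev_rev]
    rw [this]
    rfl
  rw [h3, h4] at h2
  have h5 : ∀ i, finrank K (W i ⊓ Submodule.span K (z '' {j | j < i}) :
      Submodule K (n → K)) + finrank K (W i ⊓ Submodule.span K (z '' {j | i < j}) :
      Submodule K (n → K)) ≤ finrank K (W i) := by
    intro i
    have e1 := Submodule.finrank_sup_add_finrank_inf_eq
      (W i ⊓ Submodule.span K (z '' {j | j < i})) (W i ⊓ Submodule.span K (z '' {j | i < j}))
    have e2 : (W i ⊓ Submodule.span K (z '' {j | j < i})) ⊔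
        (W i ⊓ Submodule.span K (z '' {j | i < j})) ≤ W i := sup_le inf_le_left inf_le_left
    have e3 := Submodule.finrank_mono e2
    have e4 : Disjoint (Submodule.span K (z '' {j | j < i}))
        (Submodule.span K (z '' {j | i < j})) := by
      refine hz.disjoint_span_image ?_
      rw [Set.disjoint_left]
      intro j hj hj'
      exact lt_asymm (α := Fin d) hj hj'
    have e5 : (W i ⊓ Submodule.span K (z '' {j | j < i})) ⊓
        (W i ⊓ Submodule.span K (z '' {j | i < j})) = ⊥ := by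
      rw [← disjoint_iff]
      exact e4.mono inf_le_right inf_le_right
    rw [e5, finrank_bot] at e1
    omega
  have h6 := Finset.sum_le_sum fun i (_ : i ∈ Finset.univ) => h5 i
  rw [Finset.sum_add_distrib] at h6
  omega

variable {σ : Type*}

/-- the symmetric matrices -/
def symSp (n K : Type*) [Field K] : Submodule K (Matrix n n K) where
  carrier := {M | Mᵀ = M}
  add_mem' := by
    intro M N hM hN
    change (M + N)ᵀ = M + N
    rw [transpose_add, show Mᵀ = M from hM, show Nᵀ = N from hN]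
  zero_mem' := transpose_zero
  smul_mem' := by
    intro c M hM
    change (c • M)ᵀ = c • M
    rw [transpose_smul, show Mᵀ = M from hM]

/-- the symmetric matrices which are orthogonal to the given ones -/
def annS (A : σ → Matrix n n K) : Submodule K (Matrix n n K) := ann A ⊓ symSp n K

theorem pair_eq (M : Matrix n n K) (x y : n → K) :
    ∑ i, ∑ j, vecMulVec x y i j * M i j = x ⬝ᵥ (M *ᵥ y) := by
  simp only [vecMulVec_apply, dotProduct, mulVec, Finset.mul_sum]
  exact Finset.sum_congr rfl fun i _ => Finset.sum_congr rfl fun j _ => by ring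

theorem dot_symm {M : Matrix n n K} (hM : Mᵀ = M) (x y : n → K) :
    x ⬝ᵥ (M *ᵥ y) = y ⬝ᵥ (M *ᵥ x) := by
  rw [dotProduct_mulVec, ← mulVec_transpose, hM, dotProduct_comm]

theorem sp_mem_annS {A : σ → Matrix n n K} (hA : ∀ k, (A k)ᵀ = A k) {z w : n → K}
    (h : ∀ k, z ⬝ᵥ (A k *ᵥ w) = 0) : sp z w ∈ annS A := by
  refine ⟨fun k => ?_, ?_⟩
  · simp only [sp, Matrix.add_apply, add_mul, Finset.sum_add_distrib]
    rw [pair_eq, pair_eq, dot_symm (hA k) w z, h k, add_zero]
  · change (sp z w)ᵀ = sp z w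
    ext i j
    simp only [sp, transpose_apply, Matrix.add_apply, vecMulVec_apply]
    ring

theorem sp2_mem_annS {A : σ → Matrix n n K} (hA : ∀ k, (A k)ᵀ = A k) {z w z' w' : n → K}
    (h : ∀ k, z ⬝ᵥ (A k *ᵥ w) + z' ⬝ᵥ (A k *ᵥ w') = 0) : sp z w + sp z' w' ∈ annS A := by
  refine ⟨fun k => ?_, ?_⟩
  · simp only [sp, Matrix.add_apply, add_mul, Finset.sum_add_distrib]
    rw [pair_eq, pair_eq, pair_eq, pair_eq, dot_symm (hA k) w z, dot_symm (hA k) w' z']
    calc _ = (2 : K) * (z ⬝ᵥ (A k *ᵥ w) + z' ⬝ᵥ (A k *ᵥ w')) := by ring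
      _ = 0 := by rw [h k, mul_zero]
  · change (sp z w + sp z' w')ᵀ = sp z w + sp z' w'
    ext i j
    simp only [sp, transpose_apply, Matrix.add_apply, vecMulVec_apply]
    ring

theorem finrank_annS (A : σ → Matrix n n K) (hA : ∀ k, (A k)ᵀ = A k) :
    finrank K (annS A) + finrank K (Submodule.span K (Set.range A)) ≤ finrank K (symSp n K) := by
  let φ : Matrix n n K →ₗ[K] Matrix n n K :=
    { toFun := fun M => M + Mᵀ
      map_add' := fun M N => by
        rw [transpose_add]
        abel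
      map_smul' := fun c M => by
        rw [transpose_smul, RingHom.id_apply, smul_add] }
  have key : ∀ V : Submodule K (Matrix n n K), (∀ M ∈ V, Mᵀ ∈ V) → V.map φ = V ⊓ symSp n K := by
    intro V hV
    ext M
    constructor
    · rintro ⟨M', hM', rfl⟩
      refine ⟨Submodule.add_mem _ hM' (hV _ hM'), ?_⟩
      change (M' + M'ᵀ)ᵀ = M' + M'ᵀ
      rw [transpose_add, transpose_transpose, add_comm]
    · rintro ⟨hM, hM2⟩
      refine ⟨(2 : K)⁻¹ • M, Submodule.smul_mem _ _ hM, ?_⟩
      change (2 : K)⁻¹ • M + ((2 : K)⁻¹ • M)ᵀ = M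
      rw [transpose_smul, show Mᵀ = M from hM2, ← add_smul, ← two_mul,
        mul_inv_cancel₀ two_ne_zero, one_smul]
  have h1 := finrank_map_add φ ⊤
  have h2 := finrank_map_add φ (ann A)
  have hsum : ∀ (M : Matrix n n K) (k : σ), ∑ i, ∑ j, Mᵀ i j * A k i j =
      ∑ i, ∑ j, M i j * A k i j := by
    intro M k
    rw [Finset.sum_comm]
    refine Finset.sum_congr rfl fun i _ => Finset.sum_congr rfl fun j _ => ?_
    have : A k j i = A k i j := congrFun (congrFun (hA k) i) j
    rw [transpose_apply, this]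
  rw [key ⊤ (fun _ _ => Submodule.mem_top), top_inf_eq, inf_top_eq, finrank_top,
    Module.finrank_matrix] at h1
  rw [key (ann A) (fun M hM k => by rw [hsum]; exact hM k)] at h2
  have h3 : LinearMap.ker φ ⊓ ann A = LinearMap.ker φ := by
    refine inf_eq_left.2 fun M hM k => ?_
    have hM' : M + Mᵀ = 0 := hM
    have e1 : M = -Mᵀ := eq_neg_of_add_eq_zero_left hM'
    have e2 : ∑ i, ∑ j, M i j * A k i j = -∑ i, ∑ j, Mᵀ i j * A k i j := by
      conv_lhs => rw [e1]
      simp only [Matrix.neg_apply, neg_mul, Finset.sum_neg_distrib]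
    rw [hsum] at e2
    have e3 : (2 : K) * ∑ i, ∑ j, M i j * A k i j = 0 := by
      rw [two_mul]
      nth_rewrite 1 [e2]
      rw [neg_add_cancel]
    exact (mul_eq_zero.1 e3).resolve_left two_ne_zero
  rw [h3] at h2
  have h4 := finrank_ann A
  rw [Module.finrank_self, mul_one] at h1
  change finrank K (ann A ⊓ symSp n K : Submodule K (Matrix n n K)) + _ ≤ _
  omega

end alg

end Pool.Agent.W981.Des
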