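import Pool.Agent.W981.Den.Local3
import Pool.Agent.W981.Des.Alg

/-!
# Local maxima of the rank in large spaces of symmetric matrices
-/

set_option autoImplicit false
set_option linter.unusedSectionVars false

namespace Pool.Agent.W981.Des

open Pool.Agent.W981.Hyp Pool.Agent.W981.Blk Pool.Agent.W981.Aff Pool.Agent.W981.Den Module Matrix
open Pool.Agent.W981.Loc (pt rank_pert exists_ginv rank_add_ker Good good_zero_right)

section arith

theorem ar1 {k N a e1 d1 : ℕ} (H : a + 3 * ((k + 1) * ((k + 2) * (k + 2))) < (k + 1) * N)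
    (b1 : 2 * ((k + 1) * e1) ≤ 2 * a + (k + 1) * (k + 1 - 1)) (g1 : N + 1 ≤ e1 + d1) :
    4 * (k + 1) ≤ d1 := by
  rw [Nat.add_sub_cancel] at b1
  have h1 : (k + 1) * (2 * e1 + 6 * ((k + 2) * (k + 2))) < (k + 1) * (2 * N + k) := by
    nlinarith
  have h2 := Nat.lt_of_mul_lt_mul_left h1
  have h3 : (k + 2) * (k + 2) = k * k + 4 * k + 4 := by ring
  rw [h3] at h2
  omega

theorem ar2 {k N a e2 d2 : ℕ} (H : a + 3 * ((k + 1) * ((k + 2) * (k + 2))) < (k + 1) * N)
    (b2 : 2 * (4 * (k + 1) * e2) ≤ 2 * a + 4 * (k + 1) * (4 * (k + 1) - 1))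
    (g2 : N + 1 ≤ e2 + d2) : 3 * N < 4 * d2 := by
  have e : 4 * (k + 1) - 1 = 4 * k + 3 := by omega
  rw [e] at b2
  have h1 : (k + 1) * (8 * e2 + 6 * ((k + 2) * (k + 2))) < (k + 1) * (2 * N + 16 * k + 12) := by
    nlinarith
  have h2 := Nat.lt_of_mul_lt_mul_left h1
  have h3 : (k + 2) * (k + 2) = k * k + 4 * k + 4 := by ring
  rw [h3] at h2
  omega

theorem ar3 {k N a e3 d2 : ℕ} (H : a + 3 * ((k + 1) * ((k + 2) * (k + 2))) < (k + 1) * N)
    (b3 : e3 * d2 ≤ 2 * a) (g : 3 * N < 4 * d2) : e3 ≤ 3 * k + 2 := by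
  by_contra hcon
  have h1 : 3 * (k + 1) * d2 ≤ e3 * d2 := Nat.mul_le_mul_right _ (by omega)
  have h2 : (k + 1) * (3 * d2) < (k + 1) * (2 * N) := by nlinarith
  have h3 := Nat.lt_of_mul_lt_mul_left h2
  omega

theorem ar4 {k N a s : ℕ} (H : a + 3 * ((k + 1) * ((k + 2) * (k + 2))) < (k + 1) * N)
    (hs : s ≤ 3 * k + 2) : k * s + (3 * k + 2) < N + s := by
  have h1 : (k + 1) * (3 * ((k + 2) * (k + 2))) < (k + 1) * N := by nlinarith
  have h2 := Nat.lt_of_mul_lt_mul_left h1
  have h3 : (k + 2) * (k + 2) = k * k + 4 * k + 4 := by ring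
  have h4 : k * s ≤ k * (3 * k + 2) := Nat.mul_le_mul_left _ hs
  have h5 : k * (3 * k + 2) = 3 * (k * k) + 2 * k := by ring
  rw [h3] at h2
  omega

theorem ar5 {k N a s : ℕ} (H : a + 3 * ((k + 1) * ((k + 2) * (k + 2))) < (k + 1) * N)
    (hs : s ≤ 3 * k + 2)
    (h : (k + 1) * (N + s - (3 * k + 2)) ≤ a + (k + 1) * ((k + 1) * s)) : False := by
  have h0 := ar4 H hs
  have h1 : (k + 1) * (N + s - (3 * k + 2) + 3 * ((k + 2) * (k + 2))) <
      (k + 1) * (N + (k + 1) * s) := by nlinarith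
  have h2 := Nat.lt_of_mul_lt_mul_left h1
  have h3 : (k + 2) * (k + 2) = k * k + 4 * k + 4 := by ring
  have h4 : k * s ≤ k * (3 * k + 2) := Nat.mul_le_mul_left _ hs
  have h5 : k * (3 * k + 2) = 3 * (k * k) + 2 * k := by ring
  have h6 : (k + 1) * s = k * s + s := by ring
  rw [h3, h6] at h2
  omega

end arith

section line

variable {K : Type*} [Field K] [Infinite K] {n m : Type*} [Fintype n] [DecidableEq n]
  [Fintype m] [DecidableEq m] {L N : Matrix m n K} {G : Matrix n m K}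

theorem tangent_mem' (hG : L * G * L = L) (h : ∀ s : K, (L + s • N).rank ≤ L.rank)
    (W : Submodule K (n → K)) (F : Set K) (hF : F.Finite)
    (hW : ∀ s : K, s ∉ F → L.rank ≤ (L + s • N).rank → ∀ y,
      (L + s • N) *ᵥ y = 0 → y ∈ W) {x : n → K} (hx : L *ᵥ x = 0) :
    G *ᵥ (N *ᵥ x) ∈ W := by
  rw [mem_iff_dot]
  intro ψ hψ
  have hinf : (Good L N {ψ}).Infinite := by
    refine ((drop_finite L N).union hF).infinite_compl.mono fun s hs => ?_
    rw [Set.mem_compl_iff, Set.mem_union, not_or] at hs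
    have hs' : L.rank ≤ (L + s • N).rank := by
      by_contra h0
      exact hs.1 h0
    refine ⟨h s, fun v hv y hy => ?_⟩
    rw [Set.mem_singleton_iff] at hv
    subst hv
    exact hψ y (hW s hs.2 hs' y hy)
  have h1 := good_zero_right hG {ψ} hinf (Set.mem_singleton ψ) 1 hx
  rw [pow_one, ← mulVec_mulVec] at h1
  exact h1

end line

section loc

variable {σ K : Type*} [Field K] [CharZero K] [DecidableEq σ] [Fintype σ] {n : Type*}
  [Fintype n] [DecidableEq n]

theorem exists_sym_ginv {L : Matrix n n K} (hL : Lᵀ = L) :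
    ∃ G : Matrix n n K, L * G * L = L ∧ Gᵀ = G := by
  obtain ⟨G, hG⟩ := exists_ginv L
  refine ⟨(2 : K)⁻¹ • (G + Gᵀ), ?_, ?_⟩
  · have h1 : L * Gᵀ * L = L := by
      have := congrArg Matrix.transpose hG
      rw [transpose_mul, transpose_mul, hL, ← Matrix.mul_assoc] at this
      exact this
    rw [Matrix.mul_smul, Matrix.smul_mul, Matrix.mul_add, Matrix.add_mul, hG, h1, ← two_smul K L,
      smul_smul, inv_mul_cancel₀ two_ne_zero, one_smul]
  · rw [transpose_smul, transpose_add, transpose_transpose, add_comm]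

variable {B : Matrix n n K} {A : σ → Matrix n n K} {r C : ℕ} {h : σ → K}

theorem pt_sym (hB : Bᵀ = B) (hA : ∀ k, (A k)ᵀ = A k) (x : σ → K) :
    (pt B A x)ᵀ = pt B A x := by
  have := pt_transpose B A x
  simp only [hB, hA] at this
  exact this.symm

theorem mem_W (hA : ∀ k, (A k)ᵀ = A k) {x : σ → K} {z w : n → K} (hz : pt B A x *ᵥ z = 0)
    (hw : w ∈ perp (AKs A (pt B A x))) : sp z w ∈ annS A :=
  sp_mem_annS hA fun k => by
    rw [dot_symm (hA k)]
    exact hw _ (Submodule.subset_span ⟨k, z, hz, rfl⟩)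

theorem prodS (hA : ∀ k, (A k)ᵀ = A k) (c : ℕ) {D : ℕ}
    (hD1 : 1 ≤ D) (hD : D ≤ finrank K (KX B A r c h)) :
    ∃ x, Gd B A r c h x ∧ 2 * (D * ee B A x) ≤ 2 * finrank K (annS A) + D * (D - 1) := by
  by_contra hcon
  have hcon' : ∀ x, Gd B A r c h x → 2 * finrank K (annS A) + D * (D - 1) <
      2 * (D * ee B A x) := by
    intro x hx
    by_contra h0
    exact hcon ⟨x, hx, not_lt.1 h0⟩
  obtain ⟨z, hz, -, hli⟩ := Submodule.exists_fun_fin_finrank_span_eq K
    {z | ∃ x, Gd B A r c h x ∧ pt B A x *ᵥ z = 0}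
  choose x hx hxz using hz
  have h2 := countB (annS A) (hli.comp _ (Fin.castLE_injective hD))
    (fun i => perp (AKs A (pt B A (x (Fin.castLE hD i)))))
    (fun i w hw => mem_W hA (hxz (Fin.castLE hD i)) hw)
  have h4 : ∑ _a : Fin D, (2 * finrank K (annS A) + D * (D - 1)) <
      ∑ a : Fin D, 2 * (D * ee B A (x (Fin.castLE hD a))) := by
    refine Finset.sum_lt_sum_of_nonempty ?_ fun a _ => hcon' _ (hx (Fin.castLE hD a))
    rw [Finset.univ_nonempty_iff, ← Fin.pos_iff_nonempty]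
    exact hD1
  rw [← Finset.mul_sum, ← Finset.mul_sum, Finset.sum_const, Finset.card_univ, Fintype.card_fin,
    smul_eq_mul] at h4
  have h5 := Nat.mul_le_mul_left D h2
  have h6 : D * (2 * ∑ i : Fin D, finrank K (perp (AKs A (pt B A (x (Fin.castLE hD i)))))) =
      2 * (D * ∑ a : Fin D, ee B A (x (Fin.castLE hD a))) := by
    rw [Nat.mul_left_comm]
    rfl
  omega

theorem prodS' (hA : ∀ k, (A k)ᵀ = A k) (hr : r ≤ (pt B A h).rank) (c : ℕ) :
    ∃ x, Gd B A r c h x ∧ ee B A x * finrank K (KX B A r c h) ≤ 2 * finrank K (annS A) := by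
  by_contra hcon
  have hcon' : ∀ x, Gd B A r c h x → 2 * finrank K (annS A) <
      ee B A x * finrank K (KX B A r c h) := by
    intro x hx
    by_contra h0
    exact hcon ⟨x, hx, not_lt.1 h0⟩
  obtain ⟨z, hz, -, hli⟩ := Submodule.exists_fun_fin_finrank_span_eq K
    {z | ∃ x, Gd B A r c h x ∧ pt B A x *ᵥ z = 0}
  choose x hx hxz using hz
  have h2 := countB' (annS A) hli (fun i => perp (AKs A (pt B A (x i))))
    (fun i w hw => mem_W hA (hxz i) hw)
  have h3 : finrank K (KX B A r c h) ≠ 0 := by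
    intro h0
    have := hcon' h ⟨near_refl c h, hr⟩
    rw [h0, mul_zero] at this
    exact Nat.not_lt_zero _ this
  have h4 : ∑ _a : Fin (finrank K (KX B A r c h)), 2 * finrank K (annS A) <
      ∑ a : Fin (finrank K (KX B A r c h)), ee B A (x a) * finrank K (KX B A r c h) := by
    refine Finset.sum_lt_sum_of_nonempty ?_ fun a _ => hcon' (x a) (hx a)
    rw [Finset.univ_nonempty_iff, ← Fin.pos_iff_nonempty]
    exact Nat.pos_of_ne_zero h3
  have h5 := Nat.mul_le_mul_right (finrank K (KX B A r c h)) h2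
  rw [Finset.sum_mul] at h5
  rw [Finset.sum_const, Finset.card_univ, Fintype.card_fin, smul_eq_mul, mul_comm] at h4
  exact absurd h5 (not_le.2 h4)

/-- the span of the kernels at the good points near `x` with a small `e` -/
def YY (B : Matrix n n K) (A : σ → Matrix n n K) (r e : ℕ) (x : σ → K) : Submodule K (n → K) :=
  Submodule.span K {z | ∃ y, near 1 x y ∧ r ≤ (pt B A y).rank ∧ ee B A y ≤ e ∧
    pt B A y *ᵥ z = 0}

theorem YY_big (hl : LocMax B A r C h) {c e : ℕ} (hc : c + 1 ≤ C) {x : σ → K}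
    (hx : Gd B A r c h x) (he : ee B A x ≤ e) :
    Fintype.card n + (Fintype.card n - r) ≤ e + finrank K (YY B A r e x) := by
  have hinf : Infinite K := CharZero.infinite K
  obtain ⟨G, hG⟩ := exists_ginv (pt B A x)
  have h0 : LinearMap.ker (pt B A x).mulVecLin ≤ YY B A r e x := fun z hz =>
    Submodule.subset_span ⟨x, near_refl 1 x, hx.2, he, hz⟩
  have h1 : AKs A (pt B A x) ≤ (YY B A r e x).map (pt B A x).mulVecLin := by
    rw [AKs, Submodule.span_le]
    rintro _ ⟨k, z, hz, rfl⟩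
    refine ⟨G *ᵥ (A k *ᵥ z), ?_, first_order hG (rank_line_single hl hc hx k) hz⟩
    refine tangent_mem' hG (rank_line_single hl hc hx k) _ _
      (ak_finite A (pt B A x) (A k) (rank_line_single hl hc hx k)) (fun s hF hs y hy => ?_) hz
    have hs2 : finrank K (AKs A (pt B A x)) ≤ finrank K (AKs A (pt B A x + s • A k)) := by
      by_contra h0
      exact hF h0
    rw [← dirm_single A k, ← pt_add] at hs hy hs2
    have h3 := finrank_perp_AKs (B := B) (A := A) x
    have h4 := finrank_perp_AKs (B := B) (A := A) (x + s • Pi.single k 1)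
    exact Submodule.subset_span ⟨x + s • Pi.single k 1, near_smul (near_single k 1) x s,
      hx.2.trans hs, by omega, hy⟩
  have h2 := Submodule.finrank_mono h1
  have h3 := finrank_map_add (pt B A x).mulVecLin (YY B A r e x)
  rw [inf_eq_left.2 h0] at h3
  have h5 := rank_add_ker (pt B A x)
  have h6 := finrank_perp_AKs (B := B) (A := A) x
  have h7 := hl x (near_mono (by omega) hx.1)
  omega

theorem quad (hB : Bᵀ = B) (hA : ∀ k, (A k)ᵀ = A k) (hl : LocMax B A r C h) {c : ℕ}
    (hc : c + 2 ≤ C) {y : σ → K} (hy : Gd B A r c h y) {G : Matrix n n K}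
    (hG : pt B A y * G * pt B A y = pt B A y) (hGs : Gᵀ = G) (k : σ) {u v : n → K}
    (hu : pt B A y *ᵥ u = 0) (hv : pt B A y *ᵥ v = 0) :
    sp u (G *ᵥ (A k *ᵥ v)) + sp v (G *ᵥ (A k *ᵥ u)) ∈ annS A := by
  have hinf : Infinite K := CharZero.infinite K
  refine sp2_mem_annS hA fun l => ?_
  have e1 : v ⬝ᵥ (A l *ᵥ (G *ᵥ (A k *ᵥ u))) = u ⬝ᵥ (A k *ᵥ (G *ᵥ (A l *ᵥ v))) := by
    rw [dot_symm (hA l), dotProduct_comm, dot_symm hGs, dotProduct_comm, dot_symm (hA k)]
  have hw : u ᵥ* pt B A y = 0 := by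
    rw [← mulVec_transpose, pt_sym hB hA]
    exact hu
  have e2 := second_order hG (rank_line_single hl (by omega) hy l)
    (rank_line_single hl (by omega) hy k) (fun s => by
      have h3 := rank_line hl (c' := 1 + 1) (by omega) hy
        (near_add (near_single l 1) (near_single k 1)) s
      rwa [dirm_add, dirm_single, dirm_single] at h3) hw hv
  rw [e1]
  exact e2

/-- the vectors which are orthogonal to `η` -/
def orth (η : n → K) : Submodule K (n → K) where
  carrier := {v | η ⬝ᵥ v = 0}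
  add_mem' := by
    intro a b ha hb
    change η ⬝ᵥ (a + b) = 0
    rw [dotProduct_add, show η ⬝ᵥ a = 0 from ha, show η ⬝ᵥ b = 0 from hb, add_zero]
  zero_mem' := dotProduct_zero η
  smul_mem' := by
    intro c a ha
    change η ⬝ᵥ (c • a) = 0
    rw [dotProduct_smul, show η ⬝ᵥ a = 0 from ha, smul_zero]

theorem point_step (hB : Bᵀ = B) (hA : ∀ k, (A k)ᵀ = A k) (hl : LocMax B A r C h) {c e : ℕ}
    (hc : c + 2 ≤ C) {y : σ → K} (hy : Gd B A r c h y) (he : ee B A y ≤ e)
    (S : Submodule K (n → K)) (hS : ¬ LinearMap.ker (pt B A y).mulVecLin ≤ S) :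
    ∃ S' : Submodule K (n → K), finrank K S' ≤ finrank K S + (Fintype.card n - r) ∧
      finrank K (annS A ⊓ Van S : Submodule K (Matrix n n K)) +
        (Fintype.card n + (Fintype.card n - r) - e) ≤
      finrank K (annS A ⊓ Van S' : Submodule K (Matrix n n K)) + finrank K S' := by
  have hinf : Infinite K := CharZero.infinite K
  obtain ⟨G, hG, hGs⟩ := exists_sym_ginv (pt_sym hB hA y)
  set L := pt B A y with hL
  obtain ⟨z, hz, hzS⟩ := SetLike.not_le_iff_exists.1 hS
  have hz0 : L *ᵥ z = 0 := hz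
  obtain ⟨η, hη, hηz⟩ : ∃ η ∈ perp S, η ⬝ᵥ z = 1 := by
    by_contra hcon
    refine hzS (mem_iff_dot.2 fun ψ hψ => ?_)
    by_contra h0
    refine hcon ⟨(ψ ⬝ᵥ z)⁻¹ • ψ, Submodule.smul_mem _ _ hψ, ?_⟩
    rw [smul_dotProduct, smul_eq_mul, inv_mul_cancel₀ h0]
  set T : Submodule K (n → K) := S ⊔ LinearMap.ker L.mulVecLin with hT
  have hSS : S ≤ T ⊓ orth η := fun v hv => ⟨Submodule.mem_sup_left hv, hη v hv⟩
  have hker : ∀ w, L *ᵥ w = 0 → w ∈ T := fun w hw => Submodule.mem_sup_right hw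
  have hzT : z ∉ T ⊓ orth η := by
    rintro ⟨-, h0⟩
    have h0' : η ⬝ᵥ z = 0 := h0
    rw [hηz] at h0'
    exact one_ne_zero h0'
  have key : ∀ y' ∈ AKs A L, ∃ τ' : n → K, L *ᵥ τ' = y' ∧
      ∃ M ∈ annS A ⊓ Van T, M - sp z τ' ∈ Van (T ⊓ orth η) := by
    intro y' hy'
    rw [AKs] at hy'
    induction hy' using Submodule.span_induction with
    | mem y' hy' =>
      obtain ⟨k, w, hw, rfl⟩ := hy'
      set lam := η ⬝ᵥ w with hlam
      have hv : L *ᵥ (w - (lam / 2) • z) = 0 := by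
        rw [mulVec_sub, mulVec_smul, hw, hz0, smul_zero, sub_zero]
      refine ⟨G *ᵥ (A k *ᵥ w), first_order hG (rank_line_single hl (by omega) hy k) hw,
        sp z (G *ᵥ (A k *ᵥ (w - (lam / 2) • z))) + sp (w - (lam / 2) • z) (G *ᵥ (A k *ᵥ z)),
        ⟨quad hB hA hl hc hy hG hGs k hz0 hv, Submodule.add_mem _
          (sp_mem_Van _ (hker z hz0)) (sp_mem_Van _ (hker _ hv))⟩, ?_⟩
      have e1 : sp z (G *ᵥ (A k *ᵥ (w - (lam / 2) • z))) +
          sp (w - (lam / 2) • z) (G *ᵥ (A k *ᵥ z)) - sp z (G *ᵥ (A k *ᵥ w)) =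
          sp (w - lam • z) (G *ᵥ (A k *ᵥ z)) := by
        have e2 : G *ᵥ (A k *ᵥ (w - (lam / 2) • z)) =
            G *ᵥ (A k *ᵥ w) - (lam / 2) • (G *ᵥ (A k *ᵥ z)) := by
          rw [mulVec_sub, mulVec_smul, mulVec_sub, mulVec_smul]
        rw [e2]
        ext i j
        simp only [sp, Matrix.add_apply, Matrix.sub_apply, vecMulVec_apply, Pi.sub_apply,
          Pi.smul_apply, smul_eq_mul]
        ring
      rw [e1]
      refine sp_mem_Van _ ⟨hker _ ?_, ?_⟩
      · rw [mulVec_sub, mulVec_smul, hw, hz0, smul_zero, sub_zero]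
      · change η ⬝ᵥ (w - lam • z) = 0
        rw [dotProduct_sub, dotProduct_smul, hηz, smul_eq_mul, mul_one, sub_self]
    | zero =>
      refine ⟨0, mulVec_zero _, 0, Submodule.zero_mem _, ?_⟩
      rw [sp_zero, sub_zero]
      exact Submodule.zero_mem _
    | add y₁ y₂ _ _ h1 h2 =>
      obtain ⟨τ₁, a1, M₁, b1, c1⟩ := h1
      obtain ⟨τ₂, a2, M₂, b2, c2⟩ := h2
      refine ⟨τ₁ + τ₂, by rw [mulVec_add, a1, a2], M₁ + M₂, Submodule.add_mem _ b1 b2, ?_⟩
      rw [sp_add, add_sub_add_comm]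
      exact Submodule.add_mem _ c1 c2
    | smul b y₁ _ h1 =>
      obtain ⟨τ₁, a1, M₁, b1, c1⟩ := h1
      refine ⟨b • τ₁, by rw [mulVec_smul, a1], b • M₁, Submodule.smul_mem _ _ b1, ?_⟩
      rw [sp_smul, ← smul_sub]
      exact Submodule.smul_mem _ _ c1
  have hstep := step (annS A ⊓ Van T) (T ⊓ orth η) ((AKs A L).comap L.mulVecLin) hzT (by
    intro τ hτ
    obtain ⟨τ', b1, M, hM, hM2⟩ := key _ hτ
    have b2 : L *ᵥ (τ - τ') = 0 := by
      rw [mulVec_sub, b1]
      exact sub_self _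
    refine ⟨M + sp z (τ - τ'), Submodule.add_mem _ hM ⟨sp_mem_annS hA fun k => ?_,
      sp_mem_Van _ (hker z hz0)⟩, ?_⟩
    · have hw : z ᵥ* L = 0 := by
        rw [← mulVec_transpose, hL, pt_sym hB hA]
        exact hz0
      rw [← first_order hG (rank_line_single hl (by omega) hy k) b2, dotProduct_mulVec, hw,
        zero_dotProduct]
    · have b3 : M + sp z (τ - τ') - sp z τ = M - sp z τ' := by
        ext i j
        simp only [sp, Matrix.add_apply, Matrix.sub_apply, vecMulVec_apply, Pi.sub_apply]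
        ring
      rw [b3]
      exact hM2)
  refine ⟨T, ?_, ?_⟩
  · have h1 := Submodule.finrank_add_le_finrank_add_finrank S (LinearMap.ker L.mulVecLin)
    have h2 := finrank_ker_le hy
    rw [← hL] at h2
    rw [← hT] at h1
    omega
  · have e1 := finrank_map_add L.mulVecLin ((AKs A L).comap L.mulVecLin)
    have e2 : AKs A L ≤ LinearMap.range L.mulVecLin := by
      rw [AKs, Submodule.span_le]
      rintro _ ⟨k, w, hw, rfl⟩
      exact ⟨_, first_order hG (rank_line_single hl (by omega) hy k) hw⟩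
    have e3 : LinearMap.ker L.mulVecLin ⊓ (AKs A L).comap L.mulVecLin =
        LinearMap.ker L.mulVecLin := by
      refine inf_eq_left.2 fun w hw => ?_
      rw [Submodule.mem_comap, LinearMap.mem_ker.1 hw]
      exact Submodule.zero_mem _
    rw [Submodule.map_comap_eq, inf_eq_right.2 e2, e3] at e1
    have e4 := finrank_perp_AKs (B := B) (A := A) y
    have e5 := rank_add_ker L
    have e6 := hl y (near_mono (by omega) hy.1)
    have e7 : annS A ⊓ Van S ≤ (annS A ⊓ Van T) ⊓ Van (T ⊓ orth η) := by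
      rintro M ⟨hM, hM2⟩
      exact ⟨⟨hM, Van_mono le_sup_left hM2⟩, Van_mono hSS hM2⟩
    have e8 := Submodule.finrank_mono e7
    have e9 : finrank K ((AKs A L).comap L.mulVecLin ⊓ (T ⊓ orth η) : Submodule K (n → K)) ≤
        finrank K T := Submodule.finrank_mono (inf_le_right.trans inf_le_left)
    rw [← hL] at e4 e6
    omega

theorem greedy (hB : Bᵀ = B) (hA : ∀ k, (A k)ᵀ = A k) (hl : LocMax B A r C h) {c e k : ℕ}
    (hc : c + 3 ≤ C) {x : σ → K} (hx : Gd B A r c h x) (he : ee B A x ≤ e)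
    (hsm : k * (Fintype.card n - r) + e < Fintype.card n + (Fintype.card n - r)) :
    ∀ f ≤ k + 1, ∃ S : Submodule K (n → K), finrank K S ≤ f * (Fintype.card n - r) ∧
      f * (Fintype.card n + (Fintype.card n - r) - e) ≤
        finrank K (annS A ⊓ Van S : Submodule K (Matrix n n K)) +
          f * ((k + 1) * (Fintype.card n - r)) := by
  intro f
  induction f with
  | zero =>
    intro _
    refine ⟨⊥, ?_, ?_⟩
    · rw [finrank_bot]
      exact Nat.zero_le _
    · rw [zero_mul]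
      exact Nat.zero_le _
  | succ f ih =>
    intro hf
    obtain ⟨S, h1, h2⟩ := ih (by omega)
    have h3 := YY_big hl (by omega) hx he
    have h4 : f * (Fintype.card n - r) ≤ k * (Fintype.card n - r) :=
      Nat.mul_le_mul_right _ (by omega)
    have h5 : ¬ YY B A r e x ≤ S := by
      intro h0
      have := Submodule.finrank_mono h0
      omega
    have h6 : ∃ y, near 1 x y ∧ r ≤ (pt B A y).rank ∧ ee B A y ≤ e ∧
        ¬ LinearMap.ker (pt B A y).mulVecLin ≤ S := by
      by_contra hcon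
      refine h5 ?_
      rw [YY, Submodule.span_le]
      rintro z ⟨y, a1, a2, a3, a4⟩
      by_contra h0
      exact hcon ⟨y, a1, a2, a3, fun h7 => h0 (h7 a4)⟩
    obtain ⟨y, a1, a2, a3, a4⟩ := h6
    obtain ⟨S', b1, b2⟩ := point_step hB hA hl (c := c + 1) (by omega)
      ⟨near_trans hx.1 a1, a2⟩ a3 S a4
    refine ⟨S', ?_, ?_⟩
    · rw [Nat.succ_mul]
      omega
    · have h8 : finrank K S' ≤ (k + 1) * (Fintype.card n - r) := by
        have h9 : (f + 1) * (Fintype.card n - r) ≤ (k + 1) * (Fintype.card n - r) :=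
          Nat.mul_le_mul_right _ hf
        rw [Nat.succ_mul] at h9
        omega
      rw [Nat.succ_mul, Nat.succ_mul]
      omega

/-- the density condition for symmetric matrices -/
def DenseS (A : σ → Matrix n n K) (k : ℕ) : Prop :=
  finrank K (symSp n K) + 3 * ((k + 1) * ((k + 2) * (k + 2))) <
    finrank K (Submodule.span K (Set.range A)) + (k + 1) * Fintype.card n

/-- **A certificate at a local maximum.** -/
theorem sym_cert (hB : Bᵀ = B) (hA : ∀ k, (A k)ᵀ = A k) {k : ℕ} (hD : DenseS A k)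
    (h : σ → K) (hl : LocMax B A (pt B A h).rank (k + 5) h) :
    ∃ U : Submodule K (n → K), finrank K U ≤ k ∧
      Fintype.card n + sdim B A U ≤ (pt B A h).rank + finrank K U := by
  have hinf : Infinite K := CharZero.infinite K
  have ha := finrank_annS A hA
  rw [DenseS] at hD
  have H : finrank K (annS A) + 3 * ((k + 1) * ((k + 2) * (k + 2))) <
    (k + 1) * Fintype.card n := by omega
  obtain ⟨r, hr⟩ : ∃ r, r = (pt B A h).rank := ⟨_, rfl⟩
  rw [← hr] at hl ⊢
  have hrn : r ≤ Fintype.card n := by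
    rw [hr]
    exact (pt B A h).rank_le_card_width
  rcases Nat.lt_or_ge r (Fintype.card n) with hrn' | hrn'
  swap
  · refine ⟨⊥, by rw [finrank_bot]; exact Nat.zero_le _, ?_⟩
    have : sdim B A (⊥ : Submodule K (n → K)) = 0 := by
      rw [sdim, ext_bot, Submodule.map_bot, finrank_bot]
    rw [this, finrank_bot]
    omega
  by_cases hd : finrank K (KX B A r k h) ≤ k
  · refine ⟨_, hd, final B A h _ hd fun v hv => ?_⟩
    refine (drop_finite (pt B A h) (dirm A v)).infinite_compl.mono fun s hs => ?_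
    have hs' : (pt B A h).rank ≤ (pt B A h + s • dirm A v).rank := by
      by_contra h0
      exact hs h0
    have h0 : Gd B A r 0 h h := ⟨near_refl 0 h, hr.le⟩
    have h1 := gd_line h0 hv hs'
    rw [zero_add] at h1
    exact ⟨hl _ (near_mono (by omega) h1.1), ker_le_KX h1⟩
  · exfalso
    obtain ⟨x1, a1, b1⟩ := prodS (B := B) (r := r) (h := h) hA k (D := k + 1) (by omega)
      (by omega)
    have g1 := sum_loc hl (by omega) a1
    have d1 := ar1 H b1 (g1 := le_trans (by omega) g1)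
    obtain ⟨x2, a2, b2⟩ := prodS (B := B) (r := r) (h := h) hA (k + 1) (D := 4 * (k + 1))
      (by omega) d1
    have g2 := sum_loc hl (by omega) a2
    have d2 := ar2 H b2 (g2 := le_trans (by omega) g2)
    obtain ⟨x3, a3, b3⟩ := prodS' (B := B) (r := r) (h := h) hA hr.le (k + 2)
    have d3 := ar3 H b3 d2
    have hs : Fintype.card n - r ≤ 3 * k + 2 := (s_le_ee hl (by omega) a3).trans d3
    obtain ⟨S, -, h2⟩ := greedy hB hA hl (by omega) a3 d3 (ar4 H hs) (k + 1) le_rfl
    have h3 : finrank K (annS A ⊓ Van S : Submodule K (Matrix n n K)) ≤ finrank K (annS A) :=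
      Submodule.finrank_mono inf_le_left
    exact ar5 H hs (by omega)

/-- the rank is bounded at a local maximum -/
theorem sym_rank (hB : Bᵀ = B) (hA : ∀ k, (A k)ᵀ = A k) {k : ℕ} (hD : DenseS A k)
    (h : σ → K) (hl : LocMax B A (pt B A h).rank (k + 5) h) :
    (gaf B A).rank = (pt B A h).rank := by
  obtain ⟨U, -, h1⟩ := sym_cert hB hA hD h hl
  have h2 := sdim_upper B A U
  have h3 := gaf_point_le B A h
  exact le_antisymm (by omega) h3

/-- **Local search.** -/
theorem sym_search (hB : Bᵀ = B) (hA : ∀ k, (A k)ᵀ = A k) {k : ℕ} (hD : DenseS A k)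
    (h : σ → K) (hh : (pt B A h).rank < (gaf B A).rank) :
    ∃ lam : σ → ℕ, (Finset.univ.filter fun k => lam k ≠ 0).card ≤ k + 5 ∧
      ∑ k, lam k ≤ Fintype.card n ∧
        (pt B A h).rank < (pt B A (h + fun k => (lam k : K))).rank := by
  by_contra hcon
  have h1 : LocMax B A (pt B A h).rank (k + 5) h := by
    refine locMax_of_moves B A h fun lam a1 a2 => ?_
    rw [min_self] at a2
    by_contra h0
    exact hcon ⟨lam, a1, a2, not_le.1 h0⟩
  have h2 := sym_rank hB hA hD h h1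
  omega

/-- **The certificate.** -/
theorem sym_exists (hB : Bᵀ = B) (hA : ∀ k, (A k)ᵀ = A k) {k : ℕ} (hD : DenseS A k) :
    ∃ U : Submodule K (n → K), finrank K U ≤ k ∧
      (gaf B A).rank + finrank K U = Fintype.card n + sdim B A U := by
  obtain ⟨lam, -, h1⟩ := gaf_special_point B A
  have h2 : (pt B A fun k => (lam k : K)).rank = (gaf B A).rank :=
    le_antisymm (gaf_point_le B A _) h1
  obtain ⟨U, hU, h3⟩ := sym_cert hB hA hD (fun k => (lam k : K)) (fun x _ => by
    rw [h2]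
    exact gaf_point_le B A x)
  refine ⟨U, hU, ?_⟩
  have := sdim_upper B A U
  omega

end loc

end Pool.Agent.W981.Des
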